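import Pool.Agent.TwR.Defs

/-!
# Three representations: definitions

The construction of `Pool.Agent.TwR`, one prime removed for every FOURFOLD coincidence.
-/

namespace Pool.Agent.TwR4

open Finset Pool.Agent.TwR

/-- ten numbers: two moduli `r`, `w` and four pairs `(p_i, v_i)` -/
@[ext] structure Tup4 where
  r : ℕ
  w : ℕ
  p0 : ℕ
  p1 : ℕ
  p2 : ℕ
  p3 : ℕ
  v0 : ℕ
  v1 : ℕ
  v2 : ℕ
  v3 : ℕ
deriving DecidableEq

/-- the pairs `0, 1, 2` -/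
def s12 (x : Tup4) : Tup := ⟨x.r, x.w, x.p0, x.p1, x.p2, x.v0, x.v1, x.v2⟩

/-- the pairs `0, 1, 3` -/
def s13 (x : Tup4) : Tup := ⟨x.r, x.w, x.p0, x.p1, x.p3, x.v0, x.v1, x.v3⟩

/-- the pairs `0, 2, 3` -/
def s23 (x : Tup4) : Tup := ⟨x.r, x.w, x.p0, x.p2, x.p3, x.v0, x.v2, x.v3⟩

/-- the first of the pairs `1, 2, 3` exchanged with the second -/
def sw12 (x : Tup4) : Tup4 := ⟨x.r, x.w, x.p0, x.p2, x.p1, x.p3, x.v0, x.v2, x.v1, x.v3⟩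

/-- the first of the pairs `1, 2, 3` exchanged with the third -/
def sw13 (x : Tup4) : Tup4 := ⟨x.r, x.w, x.p0, x.p3, x.p2, x.p1, x.v0, x.v3, x.v2, x.v1⟩

/-- `x` is a fourfold coincidence: its three parts are triple coincidences -/
structure Cfg4 (U V Rm Wm WM : ℕ) (x : Tup4) : Prop where
  c12 : Cfg U V Rm Wm WM (s12 x)
  c13 : Cfg U V Rm Wm WM (s13 x)
  c23 : Cfg U V Rm Wm WM (s23 x)

open Classical in
/-- all fourfold coincidences between the classes `k` and `l < k` for the moduli `s` -/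
noncomputable def tupS4 (P : ℕ → Finset ℕ) (s : ℕ → ℕ) (k l : ℕ) : Finset Tup4 :=
  ((P k ×ˢ P k ×ˢ P k ×ˢ P k ×ˢ P l ×ˢ P l ×ˢ P l ×ˢ P l).image
    (fun y => (⟨∏ j ∈ range l, s j, ∏ j ∈ Ico l k, s j,
      y.1, y.2.1, y.2.2.1, y.2.2.2.1, y.2.2.2.2.1, y.2.2.2.2.2.1, y.2.2.2.2.2.2.1,
      y.2.2.2.2.2.2.2⟩ : Tup4))).filter
    (fun x => s12 x ∈ tupS P s k l ∧ s13 x ∈ tupS P s k l ∧ s23 x ∈ tupS P s k l)

open Classical in
/-- the primes of class `k` that are removed -/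
noncomputable def Bad4 (P : ℕ → Finset ℕ) (k0 : ℕ) (s : ℕ → ℕ) (k : ℕ) : Finset ℕ :=
  (P k).filter (fun p => (∃ j < k, s j ∣ p) ∨ ∃ l, k0 ≤ l ∧ l < k ∧ ∃ x ∈ tupS4 P s k l, x.p0 = p)

/-- the set -/
def Aset4 (P : ℕ → Finset ℕ) (k0 : ℕ) (s : ℕ → ℕ) : Set ℕ :=
  {n | ∃ k, k0 ≤ k ∧ ∃ p ∈ P k, p ∉ Bad4 P k0 s k ∧ n = code s k p}

end Pool.Agent.TwR4
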