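import Pool.Agent.TwR.Cfg
import Pool.Agent.TwR4.Defs

/-! counting fourfold coincidences -/

namespace Pool.Agent.TwR4

open Finset Pool.Agent.TwR

/-- `k_1` -/
def K1 (x : Tup) : ℤ := ((x.p1 : ℤ) * x.v1 - x.p0 * x.v0) / x.r

/-- `k_2` -/
def K2 (x : Tup) : ℤ := ((x.p2 : ℤ) * x.v2 - x.p0 * x.v0) / x.r

/-- `e_1` -/
def E1 (x : Tup) : ℤ := ((x.p1 : ℤ) - x.p0) / x.w

/-- `e_2` -/
def E2 (x : Tup) : ℤ := ((x.p2 : ℤ) - x.p0) / x.w

/-- `t` -/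
def TT (x : Tup) : ℤ := (K1 x * ((x.v2 : ℤ) - x.v0) - K2 x * ((x.v1 : ℤ) - x.v0)) / x.w

/-- the data of `Pool.Agent.TwR.data` as functions of `x` -/
structure Dat (U V Rm Wm : ℕ) (x : Tup) : Prop where
  e1 : (x.p1 : ℤ) = x.p0 + x.w * E1 x
  e2 : (x.p2 : ℤ) = x.p0 + x.w * E2 x
  k1 : (x.p1 : ℤ) * x.v1 = x.p0 * x.v0 + x.r * K1 x
  k2 : (x.p2 : ℤ) * x.v2 = x.p0 * x.v0 + x.r * K2 x
  t1 : K1 x * ((x.v2 : ℤ) - x.v0) - K2 x * ((x.v1 : ℤ) - x.v0) = x.w * TT x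
  t2 : K1 x * E2 x * x.v2 - K2 x * E1 x * x.v1 = - (x.p0 * TT x)
  k1n : K1 x ≠ 0
  k2n : K2 x ≠ 0
  e1n : E1 x ≠ 0
  e2n : E2 x ≠ 0
  vn : x.v1 ≠ x.v2
  k1b : |K1 x| * Rm ≤ U * V
  k2b : |K2 x| * Rm ≤ U * V
  e1b : |E1 x| * Wm ≤ U
  e2b : |E2 x| * Wm ≤ U
  tb : |TT x| * (Rm * Wm) ≤ 2 * U * V * V

theorem dat {U V Rm Wm WM : ℕ} (hN : Num U V Rm Wm) {x : Tup} (hx : Cfg U V Rm Wm WM x) :
    Dat U V Rm Wm x := by
  obtain ⟨k1, k2, e1, e2, t, h1, h2, h3, h4, h5, h6, h7, h8, h9, h10, h11, h12, h13, h14, h15,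
    h16⟩ := data hN hx
  have hr : (x.r : ℤ) ≠ 0 := by
    have := hN.RV; have := hx.rm
    exact_mod_cast (by omega : x.r ≠ 0)
  have hw : (x.w : ℤ) ≠ 0 := by
    have := hN.W0; have := hx.wm
    exact_mod_cast (by omega : x.w ≠ 0)
  have a1 : K1 x = k1 := by
    unfold K1
    rw [h3, add_sub_cancel_left, Int.mul_ediv_cancel_left _ hr]
  have a2 : K2 x = k2 := by
    unfold K2
    rw [h4, add_sub_cancel_left, Int.mul_ediv_cancel_left _ hr]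
  have a3 : E1 x = e1 := by
    unfold E1
    rw [h1, add_sub_cancel_left, Int.mul_ediv_cancel_left _ hw]
  have a4 : E2 x = e2 := by
    unfold E2
    rw [h2, add_sub_cancel_left, Int.mul_ediv_cancel_left _ hw]
  have a5 : TT x = t := by
    unfold TT
    rw [a1, a2, h5, Int.mul_ediv_cancel_left _ hw]
  constructor
  · rw [a3]; exact h1
  · rw [a4]; exact h2
  · rw [a1]; exact h3
  · rw [a2]; exact h4
  · rw [a1, a2, a5]; exact h5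
  · rw [a1, a2, a3, a4, a5]; exact h6
  · rw [a1]; exact h7
  · rw [a2]; exact h8
  · rw [a3]; exact h9
  · rw [a4]; exact h10
  · exact h11
  · rw [a1]; exact h12
  · rw [a2]; exact h13
  · rw [a3]; exact h14
  · rw [a4]; exact h15
  · rw [a5]; exact h16

/-- if `t = 0`, then `v_2 | e_1` and `v_1 | e_2` -/
theorem dvd_of_zero {U V Rm Wm WM : ℕ} {x : Tup} (hx : Cfg U V Rm Wm WM x)
    (hd : Dat U V Rm Wm x) (ht : TT x = 0) : (x.v2 : ℤ) ∣ E1 x ∧ (x.v1 : ℤ) ∣ E2 x := by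
  have t1 : K1 x * ((x.v2 : ℤ) - x.v0) = K2 x * ((x.v1 : ℤ) - x.v0) := by
    have := hd.t1
    rw [ht] at this
    linarith
  have t2 : K1 x * E2 x * x.v2 = K2 x * E1 x * x.v1 := by
    have := hd.t2
    rw [ht] at this
    linarith
  have n20 : x.v2 ≠ x.v0 := by
    intro h
    rw [h, sub_self, mul_zero] at t1
    rcases mul_eq_zero.1 t1.symm with h1 | h1
    · exact hd.k2n h1
    · apply hd.vn
      have : (x.v1 : ℤ) = x.v0 := by linarith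
      rw [h]
      exact_mod_cast this
  have n10 : x.v1 ≠ x.v0 := by
    intro h
    rw [h, sub_self, mul_zero] at t1
    rcases mul_eq_zero.1 t1 with h1 | h1
    · exact hd.k1n h1
    · apply n20
      have : (x.v2 : ℤ) = x.v0 := by linarith
      exact_mod_cast this
  have key : E2 x * x.v2 * ((x.v1 : ℤ) - x.v0) = E1 x * x.v1 * ((x.v2 : ℤ) - x.v0) := by
    refine mul_left_cancel₀ hd.k1n ?_
    have : K1 x * (E1 x * x.v1 * ((x.v2 : ℤ) - x.v0)) = K2 x * E1 x * x.v1 * ((x.v1 : ℤ) - x.v0) := by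
      linear_combination (E1 x * x.v1) * t1
    rw [this, ← t2]
    ring
  have hp1 : Prime (x.v1 : ℤ) := Nat.prime_iff_prime_int.1 hx.v1.1
  have hp2 : Prime (x.v2 : ℤ) := Nat.prime_iff_prime_int.1 hx.v2.1
  have hne : ∀ {a b : ℕ}, a.Prime → b.Prime → a ≠ b → ¬ (a : ℤ) ∣ b := by
    intro a b ha hb hab h
    exact hab ((Nat.prime_dvd_prime_iff_eq ha hb).1 (Int.natCast_dvd_natCast.1 h))
  have hsub : ∀ {a b : ℕ}, a.Prime → b.Prime → a ≠ b → ¬ (a : ℤ) ∣ ((a : ℤ) - b) := by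
    intro a b ha hb hab h
    exact hne ha hb hab ((dvd_sub_right (dvd_refl (a : ℤ))).1 h)
  constructor
  · have h1 : (x.v2 : ℤ) ∣ E1 x * x.v1 * ((x.v2 : ℤ) - x.v0) := by
      rw [← key]
      exact ⟨E2 x * ((x.v1 : ℤ) - x.v0), by ring⟩
    rcases hp2.dvd_or_dvd h1 with h | h
    · rcases hp2.dvd_or_dvd h with h | h
      · exact h
      · exact absurd h (hne hx.v2.1 hx.v1.1 hd.vn.symm)
    · exact absurd h (hsub hx.v2.1 hx.v0.1 n20)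
  · have h1 : (x.v1 : ℤ) ∣ E2 x * x.v2 * ((x.v1 : ℤ) - x.v0) := by
      rw [key]
      exact ⟨E1 x * ((x.v2 : ℤ) - x.v0), by ring⟩
    rcases hp1.dvd_or_dvd h1 with h | h
    · rcases hp1.dvd_or_dvd h with h | h
      · exact h
      · exact absurd h (hne hx.v1.1 hx.v2.1 hd.vn)
    · exact absurd h (hsub hx.v1.1 hx.v0.1 n10)

/-- two different primes `> V/4` do not divide a nonzero number `<= 2 U^2 / Wm` -/
theorem not_two_dvd {U V Wm a b : ℕ} {z : ℤ} (hWm : 0 < Wm) (hbig : 32 * U ^ 2 ≤ V ^ 2 * Wm)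
    (ha : a.Prime) (hb : b.Prime) (haV : V < 4 * a) (hbV : V < 4 * b) (hab : a ≠ b)
    (h1 : (a : ℤ) ∣ z) (h2 : (b : ℤ) ∣ z) (hz : |z| * Wm ≤ 2 * U ^ 2) : z = 0 := by
  by_contra h0
  have hcop : IsCoprime (a : ℤ) (b : ℤ) :=
    Nat.isCoprime_iff_coprime.2 ((Nat.coprime_primes ha hb).2 hab)
  have h3 : (a : ℤ) * b ∣ z := hcop.mul_dvd h1 h2
  have h4 : (a : ℤ) * b ≤ |z| := Int.le_of_dvd (abs_pos.2 h0) ((dvd_abs _ _).2 h3)
  have h5 : (V : ℤ) ^ 2 < 16 * (a * b) := by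
    have e1 : (V : ℤ) < 4 * a := by exact_mod_cast haV
    have e2 : (V : ℤ) < 4 * b := by exact_mod_cast hbV
    have e3 : (0 : ℤ) ≤ V := Int.natCast_nonneg _
    nlinarith
  have h6 : (32 : ℤ) * U ^ 2 ≤ V ^ 2 * Wm := by exact_mod_cast hbig
  have h7 : (0 : ℤ) < Wm := by exact_mod_cast hWm
  have h8 : (V : ℤ) ^ 2 * Wm < 16 * |z| * Wm :=
    mul_lt_mul_of_pos_right (by linarith) h7
  linarith

/-- for a fourfold coincidence two of the three `t_ij` at an index are not both zero -/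
theorem pivot {U V Rm Wm WM : ℕ} (hN : Num U V Rm Wm) (hbig : 32 * U ^ 2 ≤ V ^ 2 * Wm)
    {x : Tup4} (hx : Cfg4 U V Rm Wm WM x) :
    (TT (s12 x) ≠ 0 ∧ TT (s13 x) ≠ 0) ∨ (TT (s12 x) ≠ 0 ∧ TT (s23 x) ≠ 0) ∨
      (TT (s13 x) ≠ 0 ∧ TT (s23 x) ≠ 0) := by
  have d12 := dat hN hx.c12
  have d13 := dat hN hx.c13
  have d23 := dat hN hx.c23
  have hW := hN.W0
  have hU : (1 : ℤ) ≤ U := by
    have := hN.UV; have := hN.V1
    exact_mod_cast (by omega : 1 ≤ U)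
  have hz : ∀ {z : ℤ}, |z| * Wm ≤ U → |z| * Wm ≤ 2 * U ^ 2 := by
    intro z h
    nlinarith
  -- the three possible pairs
  have n1 : ¬ (TT (s12 x) = 0 ∧ TT (s13 x) = 0) := by
    rintro ⟨a, b⟩
    have h1 := (dvd_of_zero hx.c12 d12 a).1
    have h2 := (dvd_of_zero hx.c13 d13 b).1
    exact d12.e1n (not_two_dvd hW hbig hx.c12.v2.1 hx.c13.v2.1 hx.c12.v2.2.1 hx.c13.v2.2.1
      d23.vn h1 h2 (hz d12.e1b))
  have n2 : ¬ (TT (s12 x) = 0 ∧ TT (s23 x) = 0) := by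
    rintro ⟨a, b⟩
    have h1 := (dvd_of_zero hx.c12 d12 a).2
    have h2 := (dvd_of_zero hx.c23 d23 b).1
    exact d12.e2n (not_two_dvd hW hbig hx.c12.v1.1 hx.c13.v2.1 hx.c12.v1.2.1 hx.c13.v2.2.1
      d13.vn h1 h2 (hz d12.e2b))
  have n3 : ¬ (TT (s13 x) = 0 ∧ TT (s23 x) = 0) := by
    rintro ⟨a, b⟩
    have h1 := (dvd_of_zero hx.c13 d13 a).2
    have h2 := (dvd_of_zero hx.c23 d23 b).2
    exact d13.e2n (not_two_dvd hW hbig hx.c12.v1.1 hx.c12.v2.1 hx.c12.v1.2.1 hx.c12.v2.2.1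
      d12.vn h1 h2 (hz d13.e2b))
  tauto

/-- `|t| < v` for `v > V/4` -/
private theorem t_lt {U V Rm Wm : ℕ} (hN : Num U V Rm Wm) {t : ℤ} {v : ℕ} (h10 : t ≠ 0)
    (h16 : |t| * (Rm * Wm) ≤ 2 * U * V * V) (h18' : V < 4 * v) : |t| < (v : ℤ) := by
  have h0 : 0 < U := by have := hN.V1; have := hN.UV; omega
  have h0' : 0 < V := hN.V1
  have hUZ : (0 : ℤ) < U := by exact_mod_cast h0
  have hVZ : (0 : ℤ) < V := by exact_mod_cast h0'
  have h17 : (8 * U * V : ℤ) < Rm * Wm := by exact_mod_cast hN.big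
  have h18 : (V : ℤ) < 4 * v := by exact_mod_cast h18'
  have h19 : 0 < |t| := abs_pos.2 h10
  have h20 : |t| * (8 * U * V) < 2 * U * V * V :=
    lt_of_lt_of_le (mul_lt_mul_of_pos_left h17 h19) h16
  have h21 : (2 * U * V : ℤ) * (4 * |t|) < (2 * U * V) * V := by
    calc (2 * U * V : ℤ) * (4 * |t|) = |t| * (8 * U * V) := by ring
      _ < 2 * U * V * V := h20
      _ = (2 * U * V) * V := by ring
  have h22 : 4 * |t| < (V : ℤ) := lt_of_mul_lt_mul_left h21 (by positivity)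
  omega

private theorem not_dvd_of_lt {t : ℤ} {v : ℕ} (h1 : t ≠ 0) (h2 : |t| < (v : ℤ)) :
    ¬ (v : ℤ) ∣ t := by
  intro h3
  have := Int.le_of_dvd (abs_pos.2 h1) ((dvd_abs _ _).2 h3)
  omega

private theorem dvd_of_dvd_mul {t z : ℤ} {v : ℕ} (hv : v.Prime) (h1 : t ≠ 0)
    (h2 : |t| < (v : ℤ)) (h3 : (v : ℤ) ∣ t * z) : (v : ℤ) ∣ z := by
  rcases (Nat.prime_iff_prime_int.1 hv).dvd_or_dvd h3 with h | h
  · exact absurd h (not_dvd_of_lt h1 h2)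
  · exact h

/-- `|e| <= U / Wm < U / 4 < p` -/
private theorem e_lt {U V Wm p : ℕ} {e : ℤ} (hV : 1 ≤ V) (hUV : 4 * V ≤ U)
    (hbig : 32 * U ^ 2 ≤ V ^ 2 * Wm) (he : |e| * Wm ≤ U) (hp : U < 4 * p) : |e| < (p : ℤ) := by
  have h4 : 4 ≤ Wm := by
    by_contra hcon
    have h2 : V ^ 2 ≤ U ^ 2 := Nat.pow_le_pow_left (by omega) 2
    have h3 : 0 < U ^ 2 := Nat.pow_pos (by omega)
    have h5 : V ^ 2 * Wm ≤ V ^ 2 * 3 := Nat.mul_le_mul_left _ (by omega)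
    omega
  have h5 : |e| * 4 ≤ |e| * Wm := mul_le_mul_of_nonneg_left (by exact_mod_cast h4) (abs_nonneg e)
  have h6 : (U : ℤ) < 4 * p := by exact_mod_cast hp
  omega

/-- the tuple is determined by `(k1, k2, k3, t12, t13, w, v0, v1)` -/
theorem fib {U V Rm Wm WM : ℕ} (hN : Num U V Rm Wm) (hbig : 32 * U ^ 2 ≤ V ^ 2 * Wm)
    {x y : Tup4} (hx : Cfg4 U V Rm Wm WM x) (hy : Cfg4 U V Rm Wm WM y)
    (hx12 : TT (s12 x) ≠ 0) (hx13 : TT (s13 x) ≠ 0)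
    (a1 : K1 (s12 x) = K1 (s12 y)) (a2 : K2 (s12 x) = K2 (s12 y)) (a3 : K2 (s13 x) = K2 (s13 y))
    (a4 : TT (s12 x) = TT (s12 y)) (a5 : TT (s13 x) = TT (s13 y)) (a6 : x.w = y.w)
    (a7 : x.v0 = y.v0) (a8 : x.v1 = y.v1) : x = y := by
  have d := dat hN hx.c12
  have f := dat hN hx.c13
  have g := dat hN hx.c23
  have d' := dat hN hy.c12
  have f' := dat hN hy.c13
  have hW := hN.W0
  have hV := hN.V1
  have hUV := hN.UV
  -- the equations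
  have de1 : (x.p1 : ℤ) = x.p0 + x.w * E1 (s12 x) := d.e1
  have de2 : (x.p2 : ℤ) = x.p0 + x.w * E2 (s12 x) := d.e2
  have dk1 : (x.p1 : ℤ) * x.v1 = x.p0 * x.v0 + x.r * K1 (s12 x) := d.k1
  have dt1 : K1 (s12 x) * ((x.v2 : ℤ) - x.v0) - K2 (s12 x) * ((x.v1 : ℤ) - x.v0) =
    x.w * TT (s12 x) := d.t1
  have dt2 : K1 (s12 x) * E2 (s12 x) * x.v2 - K2 (s12 x) * E1 (s12 x) * x.v1 =
    - (x.p0 * TT (s12 x)) := d.t2
  have fe2 : (x.p3 : ℤ) = x.p0 + x.w * E2 (s13 x) := f.e2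
  have ft1 : K1 (s12 x) * ((x.v3 : ℤ) - x.v0) - K2 (s13 x) * ((x.v1 : ℤ) - x.v0) =
    x.w * TT (s13 x) := f.t1
  have ft2 : K1 (s12 x) * E2 (s13 x) * x.v3 - K2 (s13 x) * E1 (s12 x) * x.v1 =
    - (x.p0 * TT (s13 x)) := f.t2
  have de1' : (y.p1 : ℤ) = y.p0 + y.w * E1 (s12 y) := d'.e1
  have de2' : (y.p2 : ℤ) = y.p0 + y.w * E2 (s12 y) := d'.e2
  have dk1' : (y.p1 : ℤ) * y.v1 = y.p0 * y.v0 + y.r * K1 (s12 y) := d'.k1
  have dt1' : K1 (s12 y) * ((y.v2 : ℤ) - y.v0) - K2 (s12 y) * ((y.v1 : ℤ) - y.v0) =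
    y.w * TT (s12 y) := d'.t1
  have dt2' : K1 (s12 y) * E2 (s12 y) * y.v2 - K2 (s12 y) * E1 (s12 y) * y.v1 =
    - (y.p0 * TT (s12 y)) := d'.t2
  have fe2' : (y.p3 : ℤ) = y.p0 + y.w * E2 (s13 y) := f'.e2
  have ft1' : K1 (s12 y) * ((y.v3 : ℤ) - y.v0) - K2 (s13 y) * ((y.v1 : ℤ) - y.v0) =
    y.w * TT (s13 y) := f'.t1
  have ft2' : K1 (s12 y) * E2 (s13 y) * y.v3 - K2 (s13 y) * E1 (s12 y) * y.v1 =
    - (y.p0 * TT (s13 y)) := f'.t2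
  have k1n : K1 (s12 x) ≠ 0 := d.k1n
  have eb : |E1 (s12 x)| * Wm ≤ U := d.e1b
  have eb' : |E1 (s12 y)| * Wm ≤ U := d'.e1b
  have tb : |TT (s12 x)| * (Rm * Wm) ≤ 2 * U * V * V := d.tb
  have tb3 : |TT (s13 x)| * (Rm * Wm) ≤ 2 * U * V * V := f.tb
  have e1n : E1 (s12 x) ≠ 0 := d.e1n
  rw [← a1, ← a2, ← a4, ← a6, ← a7, ← a8] at dt1'
  rw [← a1, ← a2, ← a4, ← a8] at dt2'
  rw [← a1, ← a3, ← a5, ← a6, ← a7, ← a8] at ft1'
  rw [← a1, ← a3, ← a5, ← a8] at ft2'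
  rw [← a1, ← a7, ← a8] at dk1'
  rw [← a6] at de1' de2' fe2'
  have hv2 : x.v2 = y.v2 := by
    have h : K1 (s12 x) * (x.v2 : ℤ) = K1 (s12 x) * (y.v2 : ℤ) := by linear_combination dt1 - dt1'
    exact_mod_cast mul_left_cancel₀ k1n h
  have hv3 : x.v3 = y.v3 := by
    have h : K1 (s12 x) * (x.v3 : ℤ) = K1 (s12 x) * (y.v3 : ℤ) := by linear_combination ft1 - ft1'
    exact_mod_cast mul_left_cancel₀ k1n h
  rw [← hv2] at dt2'
  rw [← hv3] at ft2'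
  have hUZ : (0 : ℤ) ≤ U := Int.natCast_nonneg U
  obtain ⟨z, hz⟩ : ∃ z : ℤ, z = x.p0 * E1 (s12 y) - y.p0 * E1 (s12 x) := ⟨_, rfl⟩
  have v2p : x.v2.Prime ∧ V < 4 * x.v2 := ⟨hx.c12.v2.1, hx.c12.v2.2.1⟩
  have v3p : x.v3.Prime ∧ V < 4 * x.v3 := ⟨hx.c13.v2.1, hx.c13.v2.2.1⟩
  have z2 : (x.v2 : ℤ) ∣ z := by
    refine dvd_of_dvd_mul v2p.1 hx12 (t_lt hN hx12 tb v2p.2) ?_
    refine ⟨K1 (s12 x) * (E2 (s12 y) * E1 (s12 x) - E2 (s12 x) * E1 (s12 y)), ?_⟩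
    rw [hz]
    linear_combination E1 (s12 y) * dt2 - E1 (s12 x) * dt2'
  have z3 : (x.v3 : ℤ) ∣ z := by
    refine dvd_of_dvd_mul v3p.1 hx13 (t_lt hN hx13 tb3 v3p.2) ?_
    refine ⟨K1 (s12 x) * (E2 (s13 y) * E1 (s12 x) - E2 (s13 x) * E1 (s12 y)), ?_⟩
    rw [hz]
    linear_combination E1 (s12 y) * ft2 - E1 (s12 x) * ft2'
  have p0b : (x.p0 : ℤ) ≤ U ∧ (y.p0 : ℤ) ≤ U := by
    have h1 : x.p0 ≤ U := hx.c12.p0.2.2
    have h2 : y.p0 ≤ U := hy.c12.p0.2.2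
    exact ⟨by exact_mod_cast h1, by exact_mod_cast h2⟩
  have hWZ : (0 : ℤ) < Wm := by exact_mod_cast hW
  have hz0 : z = 0 := by
    refine not_two_dvd hW hbig v2p.1 v3p.1 v2p.2 v3p.2 g.vn z2 z3 ?_
    have h1 : |z| ≤ U * |E1 (s12 y)| + U * |E1 (s12 x)| := by
      rw [hz]
      refine (abs_sub _ _).trans (add_le_add ?_ ?_)
      · rw [abs_mul, Nat.abs_cast]
        exact mul_le_mul_of_nonneg_right p0b.1 (abs_nonneg _)
      · rw [abs_mul, Nat.abs_cast]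
        exact mul_le_mul_of_nonneg_right p0b.2 (abs_nonneg _)
    calc |z| * (Wm : ℤ) ≤ (U * |E1 (s12 y)| + U * |E1 (s12 x)|) * Wm :=
          mul_le_mul_of_nonneg_right h1 hWZ.le
      _ = U * (|E1 (s12 y)| * Wm) + U * (|E1 (s12 x)| * Wm) := by ring
      _ ≤ U * U + U * U := add_le_add (mul_le_mul_of_nonneg_left eb' hUZ)
          (mul_le_mul_of_nonneg_left eb hUZ)
      _ = 2 * U ^ 2 := by ring
  have hp0 : x.p0 = y.p0 := by
    have px : x.p0.Prime := hx.c12.p0.1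
    have py : y.p0.Prime := hy.c12.p0.1
    have hxU : U < 4 * x.p0 := hx.c12.p0.2.1
    have h1 : (x.p0 : ℤ) ∣ y.p0 * E1 (s12 x) := ⟨E1 (s12 y), (sub_eq_zero.1 (hz.symm.trans hz0)).symm⟩
    rcases (Nat.prime_iff_prime_int.1 px).dvd_or_dvd h1 with h | h
    · exact (Nat.prime_dvd_prime_iff_eq px py).1 (Int.natCast_dvd_natCast.1 h)
    · exfalso
      exact not_dvd_of_lt e1n (e_lt hV hUV hbig eb hxU) h
  have he1 : E1 (s12 x) = E1 (s12 y) := by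
    have py : (x.p0 : ℤ) ≠ 0 := by exact_mod_cast (hx.c12.p0.1.ne_zero : x.p0 ≠ 0)
    rw [hz0, ← hp0] at hz
    exact (mul_left_cancel₀ py (sub_eq_zero.1 hz.symm)).symm
  have he2 : E2 (s12 x) = E2 (s12 y) := by
    have hv : (x.v2 : ℤ) ≠ 0 := by exact_mod_cast v2p.1.ne_zero
    rw [← hp0, ← he1] at dt2'
    have h17 : (K1 (s12 x) * x.v2) * E2 (s12 x) = (K1 (s12 x) * x.v2) * E2 (s12 y) := by
      linear_combination dt2 - dt2'
    exact mul_left_cancel₀ (mul_ne_zero k1n hv) h17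
  have he3 : E2 (s13 x) = E2 (s13 y) := by
    have hv : (x.v3 : ℤ) ≠ 0 := by exact_mod_cast v3p.1.ne_zero
    rw [← hp0, ← he1] at ft2'
    have h17 : (K1 (s12 x) * x.v3) * E2 (s13 x) = (K1 (s12 x) * x.v3) * E2 (s13 y) := by
      linear_combination ft2 - ft2'
    exact mul_left_cancel₀ (mul_ne_zero k1n hv) h17
  have hp1 : x.p1 = y.p1 := by
    have : (x.p1 : ℤ) = y.p1 := by rw [de1, de1', hp0, he1]
    exact_mod_cast this
  have hp2 : x.p2 = y.p2 := by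
    have : (x.p2 : ℤ) = y.p2 := by rw [de2, de2', hp0, he2]
    exact_mod_cast this
  have hp3 : x.p3 = y.p3 := by
    have : (x.p3 : ℤ) = y.p3 := by rw [fe2, fe2', hp0, he3]
    exact_mod_cast this
  have hr : x.r = y.r := by
    rw [← hp1, ← hp0] at dk1'
    have h17 : K1 (s12 x) * (x.r : ℤ) = K1 (s12 x) * y.r := by linear_combination dk1' - dk1
    exact_mod_cast mul_left_cancel₀ k1n h17
  exact Tup4.ext hr a6 hp0 hp1 hp2 hp3 a7 a8 hv2 hv3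

private theorem nz_mem {a : ℤ} {R M : ℕ} (hR : 0 < R) (ha : a ≠ 0) (h : |a| * R ≤ M) :
    a ∈ (Icc (-((M / R : ℕ) : ℤ)) ((M / R : ℕ) : ℤ)).erase 0 := by
  have h1 : |a| ≤ ((M / R : ℕ) : ℤ) := by
    rw [Int.natCast_div]
    exact Int.le_ediv_of_mul_le (by exact_mod_cast hR) h
  rw [mem_erase, mem_Icc]
  exact ⟨ha, (abs_le.1 h1).1, (abs_le.1 h1).2⟩

private theorem nz_card (R M : ℕ) :
    (((Icc (-((M / R : ℕ) : ℤ)) ((M / R : ℕ) : ℤ)).erase 0).card : ℝ) ≤ 2 * ((M : ℝ) / R) := by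
  have h0 : ∀ n : ℕ, ((Icc (-(n : ℤ)) (n : ℤ)).erase 0).card = 2 * n := by
    intro n
    rw [card_erase_of_mem (mem_Icc.2 ⟨by omega, by omega⟩), Int.card_Icc]
    omega
  have h1 : ((Icc (-((M / R : ℕ) : ℤ)) ((M / R : ℕ) : ℤ)).erase 0).card = 2 * (M / R) := h0 (M / R)
  rw [h1, Nat.cast_mul, Nat.cast_ofNat]
  exact mul_le_mul_of_nonneg_left Nat.cast_div_le (by norm_num)

/-- fourfold coincidences with `t12`, `t13` nonzero -/
theorem countP {U V Rm Wm WM : ℕ} (hN : Num U V Rm Wm) (hbig : 32 * U ^ 2 ≤ V ^ 2 * Wm)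
    {T : Finset Tup4} (hT : ∀ x ∈ T, Cfg4 U V Rm Wm WM x)
    (ht : ∀ x ∈ T, TT (s12 x) ≠ 0 ∧ TT (s13 x) ≠ 0) :
    (T.card : ℝ) ≤ 128 * U ^ 5 * V ^ 9 * WM / (Rm ^ 5 * Wm ^ 2) := by
  classical
  have hV : 0 < V := hN.V1
  have hU : 0 < U := by have := hN.UV; omega
  have hR : 0 < Rm := lt_of_le_of_lt (Nat.zero_le _) hN.RV
  have hW : 0 < Wm := hN.W0
  let F : Tup4 → ℤ × ℤ × ℤ × ℤ × ℤ × ℕ × ℕ × ℕ := fun x =>
    (K1 (s12 x), K2 (s12 x), K2 (s13 x), TT (s12 x), TT (s13 x), x.w, x.v0, x.v1)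
  let B : Finset (ℤ × ℤ × ℤ × ℤ × ℤ × ℕ × ℕ × ℕ) :=
    ((Icc (-((U * V / Rm : ℕ) : ℤ)) ((U * V / Rm : ℕ) : ℤ)).erase 0) ×ˢ
    ((Icc (-((U * V / Rm : ℕ) : ℤ)) ((U * V / Rm : ℕ) : ℤ)).erase 0) ×ˢ
    ((Icc (-((U * V / Rm : ℕ) : ℤ)) ((U * V / Rm : ℕ) : ℤ)).erase 0) ×ˢ
    ((Icc (-((2 * U * V * V / (Rm * Wm) : ℕ) : ℤ)) ((2 * U * V * V / (Rm * Wm) : ℕ) : ℤ)).erase 0) ×ˢ
    ((Icc (-((2 * U * V * V / (Rm * Wm) : ℕ) : ℤ)) ((2 * U * V * V / (Rm * Wm) : ℕ) : ℤ)).erase 0) ×ˢ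
    (Icc 1 WM) ×ˢ (Icc 1 V) ×ˢ (Icc 1 V)
  have hcard : T.card ≤ B.card := by
    refine Finset.card_le_card_of_injOn F ?_ ?_
    · intro x hx
      have hx' : x ∈ T := hx
      have hc := hT x hx'
      have d := dat hN hc.c12
      have f := dat hN hc.c13
      obtain ⟨t1, t2⟩ := ht x hx'
      have m1 := nz_mem (M := U * V) hR d.k1n (by push_cast; exact d.k1b)
      have m2 := nz_mem (M := U * V) hR d.k2n (by push_cast; exact d.k2b)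
      have m3 := nz_mem (M := U * V) hR f.k2n (by push_cast; exact f.k2b)
      have m4 := nz_mem (R := Rm * Wm) (M := 2 * U * V * V) (Nat.mul_pos hR hW) t1
        (by push_cast; exact d.tb)
      have m5 := nz_mem (R := Rm * Wm) (M := 2 * U * V * V) (Nat.mul_pos hR hW) t2
        (by push_cast; exact f.tb)
      have hw1 : Wm ≤ x.w := hc.c12.wm
      have hw2 : x.w ≤ WM := hc.c12.wM
      have h0 : x.v0.Prime := hc.c12.v0.1
      have h0' : x.v0 ≤ V := hc.c12.v0.2.2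
      have h1 : x.v1.Prime := hc.c12.v1.1
      have h1' : x.v1 ≤ V := hc.c12.v1.2.2
      have m6 : x.w ∈ Icc 1 WM := mem_Icc.2 ⟨by omega, hw2⟩
      have m7 : x.v0 ∈ Icc 1 V := mem_Icc.2 ⟨h0.one_lt.le, h0'⟩
      have m8 : x.v1 ∈ Icc 1 V := mem_Icc.2 ⟨h1.one_lt.le, h1'⟩
      exact mem_coe.2 (mem_product.2 ⟨m1, mem_product.2 ⟨m2, mem_product.2 ⟨m3, mem_product.2 ⟨m4,
        mem_product.2 ⟨m5, mem_product.2 ⟨m6, mem_product.2 ⟨m7, m8⟩⟩⟩⟩⟩⟩⟩)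
    · intro x hx y hy hxy
      have hx' : x ∈ T := hx
      have hy' : y ∈ T := hy
      obtain ⟨a1, b1⟩ := Prod.mk.inj hxy
      obtain ⟨a2, b2⟩ := Prod.mk.inj b1
      obtain ⟨a3, b3⟩ := Prod.mk.inj b2
      obtain ⟨a4, b4⟩ := Prod.mk.inj b3
      obtain ⟨a5, b5⟩ := Prod.mk.inj b4
      obtain ⟨a6, b6⟩ := Prod.mk.inj b5
      obtain ⟨a7, a8⟩ := Prod.mk.inj b6
      exact fib hN hbig (hT x hx') (hT y hy') (ht x hx').1 (ht x hx').2 a1 a2 a3 a4 a5 a6 a7 a8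
  have hB : (B.card : ℝ) ≤ (2 * ((U * V : ℕ) / Rm)) * ((2 * ((U * V : ℕ) / Rm)) *
      ((2 * ((U * V : ℕ) / Rm)) * ((2 * ((2 * U * V * V : ℕ) / (Rm * Wm : ℕ))) *
      ((2 * ((2 * U * V * V : ℕ) / (Rm * Wm : ℕ))) * (WM * (V * V)))))) := by
    have c4 : ((Icc 1 V).card : ℝ) ≤ V := by rw [Nat.card_Icc, Nat.add_sub_cancel]
    have c3 : ((Icc 1 WM).card : ℝ) ≤ WM := by rw [Nat.card_Icc, Nat.add_sub_cancel]
    show (((((Icc (-((U * V / Rm : ℕ) : ℤ)) ((U * V / Rm : ℕ) : ℤ)).erase 0) ×ˢ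
      ((Icc (-((U * V / Rm : ℕ) : ℤ)) ((U * V / Rm : ℕ) : ℤ)).erase 0) ×ˢ
      ((Icc (-((U * V / Rm : ℕ) : ℤ)) ((U * V / Rm : ℕ) : ℤ)).erase 0) ×ˢ
      ((Icc (-((2 * U * V * V / (Rm * Wm) : ℕ) : ℤ)) ((2 * U * V * V / (Rm * Wm) : ℕ) : ℤ)).erase 0) ×ˢ
      ((Icc (-((2 * U * V * V / (Rm * Wm) : ℕ) : ℤ)) ((2 * U * V * V / (Rm * Wm) : ℕ) : ℤ)).erase 0) ×ˢ
      (Icc 1 WM) ×ˢ (Icc 1 V) ×ˢ (Icc 1 V)).card : ℕ) : ℝ) ≤ _
    rw [card_product, card_product, card_product, card_product, card_product, card_product,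
      card_product, Nat.cast_mul, Nat.cast_mul, Nat.cast_mul, Nat.cast_mul, Nat.cast_mul,
      Nat.cast_mul, Nat.cast_mul]
    gcongr
    · exact nz_card Rm (U * V)
    · exact nz_card Rm (U * V)
    · exact nz_card Rm (U * V)
    · exact nz_card (Rm * Wm) (2 * U * V * V)
    · exact nz_card (Rm * Wm) (2 * U * V * V)
  have hR' : (0 : ℝ) < Rm := by exact_mod_cast hR
  have hW' : (0 : ℝ) < Wm := by exact_mod_cast hW
  have hV' : (0 : ℝ) < V := by exact_mod_cast hV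
  calc (T.card : ℝ) ≤ B.card := by exact_mod_cast hcard
    _ ≤ _ := hB
    _ = 128 * U ^ 5 * V ^ 9 * WM / (Rm ^ 5 * Wm ^ 2) := by
      push_cast
      field_simp
      ring

/-- pairs `1` and `2` of a triple coincidence exchanged -/
def swp (x : Tup) : Tup := ⟨x.r, x.w, x.p0, x.p2, x.p1, x.v0, x.v2, x.v1⟩

theorem cfg_swp {U V Rm Wm WM : ℕ} {x : Tup} (h : Cfg U V Rm Wm WM x) :
    Cfg U V Rm Wm WM (swp x) where
  bad := by
    obtain ⟨b1, b2, b3, b4, b5, b6, b7⟩ := h.bad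
    exact ⟨b2, b1, b4, b3, b6, b5, fun hh => b7 ⟨hh.1.symm, hh.2.symm⟩⟩
  p0 := h.p0
  p1 := h.p2
  p2 := h.p1
  v0 := h.v0
  v1 := h.v2
  v2 := h.v1
  rm := h.rm
  wm := h.wm
  wM := h.wM
  cp0 := h.cp0
  cp1 := h.cp2
  cp2 := h.cp1
  cv0 := h.cv0
  cv1 := h.cv2
  cv2 := h.cv1
  rw := h.rw

theorem TT_swp {U V Rm Wm WM : ℕ} (hN : Num U V Rm Wm) {x : Tup} (h : Cfg U V Rm Wm WM x)
    (ht : TT x ≠ 0) : TT (swp x) ≠ 0 := by
  have d := dat hN h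
  have d' := dat hN (cfg_swp h)
  intro h0
  have h1 : K2 x * ((x.v1 : ℤ) - x.v0) - K1 x * ((x.v2 : ℤ) - x.v0) = x.w * TT (swp x) := d'.t1
  have h2 := d.t1
  rw [h0, mul_zero] at h1
  have h3 : (x.w : ℤ) * TT x = 0 := by linarith
  rcases mul_eq_zero.1 h3 with h4 | h4
  · have := hN.W0
    have h5 := h.wm
    have h6 : x.w ≠ 0 := by omega
    exact h6 (by exact_mod_cast h4)
  · exact ht h4

theorem s12_sw12 (x : Tup4) : s12 (sw12 x) = swp (s12 x) := rfl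

theorem s13_sw12 (x : Tup4) : s13 (sw12 x) = s23 x := rfl

theorem s12_sw13 (x : Tup4) : s12 (sw13 x) = swp (s23 x) := rfl

theorem s13_sw13 (x : Tup4) : s13 (sw13 x) = swp (s13 x) := rfl

theorem cfg_sw12 {U V Rm Wm WM : ℕ} {x : Tup4} (h : Cfg4 U V Rm Wm WM x) :
    Cfg4 U V Rm Wm WM (sw12 x) := ⟨cfg_swp h.c12, h.c23, h.c13⟩

theorem cfg_sw13 {U V Rm Wm WM : ℕ} {x : Tup4} (h : Cfg4 U V Rm Wm WM x) :
    Cfg4 U V Rm Wm WM (sw13 x) := ⟨cfg_swp h.c23, cfg_swp h.c13, cfg_swp h.c12⟩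

theorem sw12_inj : Function.Injective sw12 := fun x y h => by
  have h' : sw12 (sw12 x) = sw12 (sw12 y) := congrArg sw12 h
  exact h'

theorem sw13_inj : Function.Injective sw13 := fun x y h => by
  have h' : sw13 (sw13 x) = sw13 (sw13 y) := congrArg sw13 h
  exact h'

/-- the number of fourfold coincidences -/
theorem count4 {U V Rm Wm WM : ℕ} (hN : Num U V Rm Wm) (hbig : 32 * U ^ 2 ≤ V ^ 2 * Wm)
    {T : Finset Tup4} (hT : ∀ x ∈ T, Cfg4 U V Rm Wm WM x) :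
    T = ∅ ∨ (Rm ≤ U * V ∧ (T.card : ℝ) ≤ 384 * U ^ 5 * V ^ 9 * WM / (Rm ^ 5 * Wm ^ 2)) := by
  classical
  rcases T.eq_empty_or_nonempty with h | ⟨x, hx⟩
  · exact Or.inl h
  · right
    have d := dat hN (hT x hx).c12
    refine ⟨?_, ?_⟩
    · have h1 : (1 : ℤ) ≤ |K1 (s12 x)| := Int.one_le_abs d.k1n
      have h2 := d.k1b
      have : (Rm : ℤ) ≤ U * V := (le_mul_of_one_le_left (Int.natCast_nonneg Rm) h1).trans h2
      exact_mod_cast this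
    · have hA := countP hN hbig (T := T.filter (fun x => TT (s12 x) ≠ 0 ∧ TT (s13 x) ≠ 0))
        (fun x hx => hT x (mem_filter.1 hx).1) (fun x hx => (mem_filter.1 hx).2)
      have hB := countP hN hbig
        (T := (T.filter (fun x => TT (s12 x) ≠ 0 ∧ TT (s23 x) ≠ 0)).image sw12)
        (fun y hy => by
          obtain ⟨x, hx, rfl⟩ := mem_image.1 hy
          exact cfg_sw12 (hT x (mem_filter.1 hx).1))
        (fun y hy => by
          obtain ⟨x, hx, rfl⟩ := mem_image.1 hy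
          obtain ⟨h1, h2, h3⟩ := mem_filter.1 hx
          rw [s12_sw12, s13_sw12]
          exact ⟨TT_swp hN (hT x h1).c12 h2, h3⟩)
      have hC := countP hN hbig
        (T := (T.filter (fun x => TT (s13 x) ≠ 0 ∧ TT (s23 x) ≠ 0)).image sw13)
        (fun y hy => by
          obtain ⟨x, hx, rfl⟩ := mem_image.1 hy
          exact cfg_sw13 (hT x (mem_filter.1 hx).1))
        (fun y hy => by
          obtain ⟨x, hx, rfl⟩ := mem_image.1 hy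
          obtain ⟨h1, h2, h3⟩ := mem_filter.1 hx
          rw [s12_sw13, s13_sw13]
          exact ⟨TT_swp hN (hT x h1).c23 h3, TT_swp hN (hT x h1).c13 h2⟩)
      rw [card_image_of_injective _ sw12_inj] at hB
      rw [card_image_of_injective _ sw13_inj] at hC
      have hsub : T ⊆ (T.filter (fun x => TT (s12 x) ≠ 0 ∧ TT (s13 x) ≠ 0)) ∪
          ((T.filter (fun x => TT (s12 x) ≠ 0 ∧ TT (s23 x) ≠ 0)) ∪
          (T.filter (fun x => TT (s13 x) ≠ 0 ∧ TT (s23 x) ≠ 0))) := by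
        intro x hx
        rw [mem_union, mem_union, mem_filter, mem_filter, mem_filter]
        rcases pivot hN hbig (hT x hx) with h | h | h
        · exact Or.inl ⟨hx, h⟩
        · exact Or.inr (Or.inl ⟨hx, h⟩)
        · exact Or.inr (Or.inr ⟨hx, h⟩)
      have hc : T.card ≤ (T.filter (fun x => TT (s12 x) ≠ 0 ∧ TT (s13 x) ≠ 0)).card +
          ((T.filter (fun x => TT (s12 x) ≠ 0 ∧ TT (s23 x) ≠ 0)).card +
          (T.filter (fun x => TT (s13 x) ≠ 0 ∧ TT (s23 x) ≠ 0)).card) :=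
        (card_le_card hsub).trans ((card_union_le _ _).trans
          (Nat.add_le_add_left (card_union_le _ _) _))
      have hc' : (T.card : ℝ) ≤ ((T.filter (fun x => TT (s12 x) ≠ 0 ∧ TT (s13 x) ≠ 0)).card : ℝ) +
          (((T.filter (fun x => TT (s12 x) ≠ 0 ∧ TT (s23 x) ≠ 0)).card : ℝ) +
          ((T.filter (fun x => TT (s13 x) ≠ 0 ∧ TT (s23 x) ≠ 0)).card : ℝ)) := by
        exact_mod_cast hc
      have e : 384 * (U : ℝ) ^ 5 * V ^ 9 * WM / (Rm ^ 5 * Wm ^ 2) =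
          128 * (U : ℝ) ^ 5 * V ^ 9 * WM / (Rm ^ 5 * Wm ^ 2) +
          (128 * (U : ℝ) ^ 5 * V ^ 9 * WM / (Rm ^ 5 * Wm ^ 2) +
          128 * (U : ℝ) ^ 5 * V ^ 9 * WM / (Rm ^ 5 * Wm ^ 2)) := by ring
      rw [e]
      exact hc'.trans (add_le_add hA (add_le_add hB hC))

end Pool.Agent.TwR4
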