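import Pool.Agent.TwR.Bdt
import Pool.Agent.TwR4.Cfg

/-! the removed primes -/

namespace Pool.Agent.TwR4

open Finset Pool.Agent.TwR

private theorem rw_mem {P : ℕ → Finset ℕ} {s : ℕ → ℕ} {k l : ℕ} {x : Tup4}
    (hx : x ∈ tupS4 P s k l) : x.r = ∏ j ∈ range l, s j ∧ x.w = ∏ j ∈ Ico l k, s j := by
  classical
  unfold tupS4 at hx
  obtain ⟨y, -, rfl⟩ := mem_image.1 (mem_filter.1 hx).1
  exact ⟨rfl, rfl⟩

private theorem eq_prod {m s s' : ℕ → ℕ} (hm : ∀ j, m j + 2 ≤ m (j + 1)) {k : ℕ} {A : Finset ℕ}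
    (hA : ∀ j ∈ A, j < k) (hs : ∀ j < k, s j ∈ Pr (m j)) (hs' : ∀ j < k, s' j ∈ Pr (m j))
    (h : ∏ j ∈ A, s j = ∏ j ∈ A, s' j) : ∀ j ∈ A, s j = s' j := by
  intro j hj
  have hp : ∀ {t : ℕ → ℕ}, (∀ j < k, t j ∈ Pr (m j)) → ∀ j ∈ A, (t j).Prime := by
    intro t ht j hj
    have h0 := ht j (hA j hj)
    unfold Pr at h0
    exact (mem_filter.1 h0).2
  have h1 : s j ∣ ∏ i ∈ A, s' i := h ▸ dvd_prod_of_mem s hj
  obtain ⟨i, hi, hd⟩ := (Prime.dvd_finsetProd_iff (hp hs j hj).prime s').1 h1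
  have he : s j = s' i := (Nat.prime_dvd_prime_iff_eq (hp hs j hj) (hp hs' i hi)).1 hd
  rcases lt_trichotomy i j with hij | hij | hij
  · have := Pr_lt hm hij (hs' i (hA i hi)) (hs j (hA j hj))
    omega
  · rw [he, hij]
  · have := Pr_lt hm hij (hs j (hA j hj)) (hs' i (hA i hi))
    omega

/-- every element of `tupS4` is a fourfold coincidence -/
theorem cfg4_of_mem {m u s : ℕ → ℕ} {k l : ℕ} (hm : ∀ j, m j + 2 ≤ m (j + 1)) (hm0 : 2 ≤ m 0)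
    (hl : l ≤ k) (hul : 2 ≤ u l) (huk : 2 ≤ u k) (hs : ∀ j < k, s j ∈ Pr (m j)) {x : Tup4}
    (hx : x ∈ tupS4 (fun k => Pr (u k)) s k l) :
    Cfg4 (2 ^ u k) (2 ^ u l) (2 ^ (sg m l - 2 * l)) (2 ^ (sg m k - sg m l - 2 * (k - l)))
      (2 ^ (sg m k - sg m l)) x := by
  classical
  unfold tupS4 at hx
  obtain ⟨-, h1, h2, h3⟩ := mem_filter.1 hx
  exact ⟨cfg_of_mem hm hm0 hl hul huk hs h1, cfg_of_mem hm hm0 hl hul huk hs h2,
    cfg_of_mem hm hm0 hl hul huk hs h3⟩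

/-- `T` = the union of the `tupS4 s k l`, a disjoint union -/
theorem exists_T4 {m u : ℕ → ℕ} {k l : ℕ} (hm : ∀ j, m j + 2 ≤ m (j + 1)) (hm0 : 2 ≤ m 0)
    (hl : l ≤ k) (hul : 2 ≤ u l) (huk : 2 ≤ u k) :
    ∃ T : Finset Tup4,
      (∀ x ∈ T, Cfg4 (2 ^ u k) (2 ^ u l) (2 ^ (sg m l - 2 * l))
        (2 ^ (sg m k - sg m l - 2 * (k - l))) (2 ^ (sg m k - sg m l)) x) ∧
      ∑ s ∈ Sq (fun j => Pr (m j)) k, (tupS4 (fun k => Pr (u k)) s k l).card = T.card := by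
  classical
  refine ⟨(Sq (fun j => Pr (m j)) k).biUnion (fun s => tupS4 (fun k => Pr (u k)) s k l), ?_, ?_⟩
  · intro x hx
    obtain ⟨s, hs, hx⟩ := mem_biUnion.1 hx
    exact cfg4_of_mem hm hm0 hl hul huk (mem_Sq hs).1 hx
  · symm
    apply card_biUnion
    intro s hs s' hs' hne
    refine disjoint_left.2 fun x hx hx' => hne ?_
    have h1 := rw_mem hx
    have h2 := rw_mem hx'
    have h3 := mem_Sq hs
    have h4 := mem_Sq hs'
    have h5 := eq_prod hm (A := range l) (k := k) (fun j hj => (mem_range.1 hj).trans_le hl)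
      h3.1 h4.1 (h1.1.symm.trans h2.1)
    have h6 := eq_prod hm (A := Ico l k) (k := k) (fun j hj => (mem_Ico.1 hj).2)
      h3.1 h4.1 (h1.2.symm.trans h2.2)
    funext j
    rcases lt_or_ge j l with hj | hj
    · exact h5 j (mem_range.2 hj)
    · rcases lt_or_ge j k with hj' | hj'
      · exact h6 j (mem_Ico.2 ⟨hj, hj'⟩)
      · rw [h3.2 j hj', h4.2 j hj']

theorem tupS4_congr {P : ℕ → Finset ℕ} {s s' : ℕ → ℕ} {k l : ℕ} (hl : l ≤ k)
    (h : ∀ j < k, s j = s' j) : tupS4 P s k l = tupS4 P s' k l := by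
  classical
  have h1 : ∏ j ∈ range l, s j = ∏ j ∈ range l, s' j :=
    Finset.prod_congr rfl fun j hj => h j (lt_of_lt_of_le (mem_range.1 hj) hl)
  have h2 : ∏ j ∈ Ico l k, s j = ∏ j ∈ Ico l k, s' j :=
    Finset.prod_congr rfl fun j hj => h j (mem_Ico.1 hj).2
  unfold tupS4
  rw [h1, h2, tupS_congr (P := P) hl h]

/-- at most `k` primes are divisible by one of `s_0, ..., s_(k-1)` -/
theorem card_Bad4_le {P : ℕ → Finset ℕ} {s : ℕ → ℕ} (hs : ∀ j, (s j).Prime)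
    (hP : ∀ k, ∀ p ∈ P k, p.Prime) (k0 k : ℕ) :
    (Bad4 P k0 s k).card ≤ k + ∑ l ∈ Ico k0 k, (tupS4 P s k l).card := by
  classical
  have hsub : Bad4 P k0 s k ⊆ (range k).image s ∪
      (Ico k0 k).biUnion (fun l => (tupS4 P s k l).image (fun x : Tup4 => x.p0)) := by
    intro p hp
    obtain ⟨hp1, hp2⟩ := mem_filter.1 hp
    rcases hp2 with ⟨j, hj, hd⟩ | ⟨l, hl0, hl1, x, hx, hxp⟩
    · refine mem_union_left _ (mem_image.2 ⟨j, mem_range.2 hj, ?_⟩)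
      exact (Nat.prime_dvd_prime_iff_eq (hs j) (hP k p hp1)).1 hd
    · refine mem_union_right _ (mem_biUnion.2 ⟨l, mem_Ico.2 ⟨hl0, hl1⟩, ?_⟩)
      exact mem_image.2 ⟨x, hx, hxp⟩
  refine (card_le_card hsub).trans ((card_union_le _ _).trans (add_le_add ?_ ?_))
  · exact card_image_le.trans (by rw [card_range])
  · exact card_biUnion_le.trans (Finset.sum_le_sum fun l _ => card_image_le)

end Pool.Agent.TwR4
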