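import Pool.Agent.TwR.Dns
import Pool.Agent.TwR4.Bdt

/-! the number of elements up to `N` -/

namespace Pool.Agent.TwR4

open Finset Pool.Agent.TwR

private theorem two_le_s {m s : ℕ → ℕ} (hs : ∀ j, s j ∈ Pr (m j)) (j : ℕ) : 2 ≤ s j :=
  (Finset.mem_filter.1 (hs j)).2.two_le

private theorem m_ge {m : ℕ → ℕ} (hm : ∀ j, m j + 2 ≤ m (j + 1)) (hm0 : 2 ≤ m 0) (j : ℕ) :
    2 ≤ m j := by
  induction j with
  | zero => exact hm0
  | succ n ih => have := hm n; omega

private theorem lt_pow_of_mem {u p : ℕ} (hu : 2 ≤ u) (hp : p ∈ Pr u) : p < 2 ^ u := by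
  have h1 := Finset.mem_filter.1 hp
  have h2 := (Finset.mem_Ioc.1 h1.1).2
  rcases h2.lt_or_eq with h | h
  · exact h
  · exfalso
    obtain ⟨v, rfl⟩ : ∃ v, u = v + 2 := ⟨u - 2, by omega⟩
    have h3 : ¬ (2 ^ (v + 2)).Prime := Nat.Prime.not_prime_pow (by omega)
    rw [← h] at h3
    exact h3 h1.2

/-- for `Bs s k <= N` the codes of the primes in `P k - Bad4` are different elements of `[1, N]` -/
theorem card_ge4 {m u s : ℕ → ℕ} {k0 k N : ℕ} (hs : ∀ j, s j ∈ Pr (m j))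
    (hm : ∀ j, m j + 2 ≤ m (j + 1)) (hm0 : 2 ≤ m 0) (hk : k0 ≤ k) (hu2 : 2 ≤ u k)
    (hu : u k ≤ sg m k - 2 * k)
    (hbad : 2 * (Bad4 (fun k => Pr (u k)) k0 s k).card ≤ (Pr (u k)).card) (hN : Bs s k ≤ N) :
    (Pr (u k)).card ≤ 2 * (Aset4 (fun k => Pr (u k)) k0 s ∩ Set.Icc 1 N).ncard := by
  classical
  have hs2 : ∀ j, 2 ≤ s j := two_le_s hs
  have hsp : ∀ j, (s j).Prime := fun j => (Finset.mem_filter.1 (hs j)).2
  have hinj : Function.Injective s := by
    intro i j hij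
    by_contra hne
    rcases Nat.lt_or_gt_of_ne hne with h | h
    · have := Pr_lt hm h (hs i) (hs j); omega
    · have := Pr_lt hm h (hs j) (hs i); omega
  have hk0 : 0 < k := by
    rcases Nat.eq_zero_or_pos k with h | h
    · exfalso
      subst h
      have : sg m 0 = 0 := by simp [sg]
      omega
    · exact h
  have hprod : 2 ^ u k ≤ ∏ j ∈ range k, s j :=
    le_trans (Nat.pow_le_pow_right (by norm_num) hu)
      (prod_range_bounds (m_ge hm hm0) (fun j _ => hs j)).1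
  have hfin : (Aset4 (fun k => Pr (u k)) k0 s ∩ Set.Icc 1 N).Finite :=
    (Set.finite_Icc 1 N).subset Set.inter_subset_right
  have hcard : (Pr (u k) \ Bad4 (fun k => Pr (u k)) k0 s k).card
      ≤ (Aset4 (fun k => Pr (u k)) k0 s ∩ Set.Icc 1 N).ncard := by
    rw [← Set.ncard_coe_finset]
    refine Set.ncard_le_ncard_of_injOn (fun p => code s k p) ?_ ?_ hfin
    · intro p hp
      rw [Finset.mem_coe, Finset.mem_sdiff] at hp
      refine ⟨⟨k, hk, p, hp.1, hp.2, rfl⟩, ?_⟩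
      have h1 := code_pos hs2 hk0 p
      have h2 := code_lt hs2 k p
      exact Set.mem_Icc.2 ⟨h1, by omega⟩
    · intro p hp p' hp' h
      rw [Finset.mem_coe, Finset.mem_sdiff] at hp hp'
      have hnd : ∀ q, q ∈ Pr (u k) ∧ q ∉ Bad4 (fun k => Pr (u k)) k0 s k →
          ∀ j < k, ¬ s j ∣ q := by
        intro q hq j hj hd
        apply hq.2
        unfold Bad4
        exact Finset.mem_filter.2 ⟨hq.1, Or.inl ⟨j, hj, hd⟩⟩
      have h1 := (code_inj_modEq hsp hinj (hnd p hp) (hnd p' hp') h).2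
      exact Nat.ModEq.eq_of_lt_of_lt h1 (lt_of_lt_of_le (lt_pow_of_mem hu2 hp.1) hprod)
        (lt_of_lt_of_le (lt_pow_of_mem hu2 hp'.1) hprod)
  have h3 : (Pr (u k)).card ≤ (Pr (u k) \ Bad4 (fun k => Pr (u k)) k0 s k).card
      + (Bad4 (fun k => Pr (u k)) k0 s k).card := by
    have h4 := Finset.le_card_sdiff (Bad4 (fun k => Pr (u k)) k0 s k) (Pr (u k))
    omega
  omega

end Pool.Agent.TwR4
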