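import Mathlib

/-! The exponent inequality (`x = s_k`, `y = s_l`, `a = u_k`, `b = u_l`). -/

namespace Pool.Agent.TwR4

/-- `K >= 1` forces `y <= (β x + 2k) / (1 - β)`; the condition is `5 β^2 + 2 β - 2 < 0`. -/
theorem expC {β : ℝ} (h1 : 4 / 9 < β) (h2 : β < 1 / 2) (h3 : 5 * β ^ 2 + 2 * β - 2 < 0) :
    ∃ δ > 0, ∀ x y a b k : ℝ, 0 ≤ x → 0 ≤ y → 0 ≤ k → a ≤ β * x → b ≤ β * y →
      y - 2 * k ≤ a + b → 4 * a + 9 * b - 2 * x - 4 * y + 10 * k ≤ - δ * x + 12 * k := by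
  refine ⟨-(5 * β ^ 2 + 2 * β - 2) / (1 - β), by
    apply div_pos <;> linarith, ?_⟩
  intro x y a b k hx hy hk ha hb hab
  have h4 : (0 : ℝ) < 1 - β := by linarith
  have h5 : y ≤ (β * x + 2 * k) / (1 - β) := by
    rw [le_div_iff₀ h4]
    nlinarith
  have h6 : (9 * β - 4) * y ≤ (9 * β - 4) * ((β * x + 2 * k) / (1 - β)) :=
    mul_le_mul_of_nonneg_left h5 (by linarith)
  have h7 : (9 * β - 4) * ((β * x + 2 * k) / (1 - β)) =
      (9 * β - 4) * β / (1 - β) * x + (9 * β - 4) * 2 / (1 - β) * k := by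
    field_simp
  have h8 : (9 * β - 4) * 2 / (1 - β) ≤ 2 := by
    rw [div_le_iff₀ h4]
    linarith
  have h9 : (9 * β - 4) * 2 / (1 - β) * k ≤ 2 * k := mul_le_mul_of_nonneg_right h8 hk
  have h10 : (4 * β - 2) * x + (9 * β - 4) * β / (1 - β) * x =
      - (-(5 * β ^ 2 + 2 * β - 2) / (1 - β)) * x := by
    field_simp
    ring
  nlinarith

theorem sqrt11_bounds : 3.316 < √11 ∧ √11 < 3.317 := by
  constructor
  · rw [Real.lt_sqrt (by norm_num)]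
    norm_num
  · rw [Real.sqrt_lt' (by norm_num)]
    norm_num

theorem beta_facts {β : ℝ} (h1 : 4 / 9 < β) (h2 : β < (√11 - 1) / 5) :
    β < 1 / 2 ∧ 5 * β ^ 2 + 2 * β - 2 < 0 := by
  obtain ⟨h3, h4⟩ := sqrt11_bounds
  have h5 : √11 ^ 2 = 11 := Real.sq_sqrt (by norm_num)
  refine ⟨by linarith, ?_⟩
  nlinarith

end Pool.Agent.TwR4
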