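import Pool.Agent.TwR4.Bdt

/-! at most three representations -/

namespace Pool.Agent.TwR4

open Finset Pool.Agent.TwR

private theorem notBad {P : ℕ → Finset ℕ} {s : ℕ → ℕ} {k0 k p : ℕ} (hp : p ∈ P k)
    (h : p ∉ Bad4 P k0 s k) : ∀ j < k, ¬ s j ∣ p := by
  classical
  intro j hj hd
  apply h
  unfold Bad4
  exact Finset.mem_filter.2 ⟨hp, Or.inl ⟨j, hj, hd⟩⟩

private theorem dec {P : ℕ → Finset ℕ} {s : ℕ → ℕ} {k0 a b : ℕ} (ha : a ∈ Aset4 P k0 s)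
    (hb : b ∈ Aset4 P k0 s) : ∃ k l p v, l ≤ k ∧ k0 ≤ l ∧ p ∈ P k ∧ v ∈ P l ∧
      p ∉ Bad4 P k0 s k ∧ v ∉ Bad4 P k0 s l ∧
      ((a = code s k p ∧ b = code s l v) ∨ (a = code s l v ∧ b = code s k p)) := by
  obtain ⟨k, hk, p, hp, hpB, rfl⟩ := ha
  obtain ⟨l, hl, v, hv, hvB, rfl⟩ := hb
  rcases le_total l k with h | h
  · exact ⟨k, l, p, v, h, hl, hp, hv, hpB, hvB, Or.inl ⟨rfl, rfl⟩⟩
  · exact ⟨l, k, v, p, h, hk, hv, hp, hvB, hpB, Or.inr ⟨rfl, rfl⟩⟩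

/-- the pairs of two different representations differ -/
private theorem ne_pair {s : ℕ → ℕ} {k l p v p' v' n : ℕ} {x x' : ℕ × ℕ} (hne : x ≠ x')
    (hl : x.1 ≤ x.2) (hl' : x'.1 ≤ x'.2) (hn : x.1 + x.2 = n) (hn' : x'.1 + x'.2 = n)
    (hc : (x.1 = code s k p ∧ x.2 = code s l v) ∨ (x.1 = code s l v ∧ x.2 = code s k p))
    (hc' : (x'.1 = code s k p' ∧ x'.2 = code s l v') ∨ (x'.1 = code s l v' ∧ x'.2 = code s k p')) :
    ¬ (p' = p ∧ v' = v) := by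
  rintro ⟨rfl, rfl⟩
  apply hne
  apply Prod.ext <;>
  rcases hc with ⟨h, h'⟩ | ⟨h, h'⟩ <;> rcases hc' with ⟨h1, h1'⟩ | ⟨h1, h1'⟩ <;> omega

/-- Four different representations give a fourfold coincidence or, on one level, two equal
products. -/
theorem three_reps {m u s : ℕ → ℕ} {k0 : ℕ} (hs : ∀ j, s j ∈ Pr (m j))
    (hm : ∀ j, m j + 2 ≤ m (j + 1)) (hm0 : 2 ≤ m 0)
    (hsq : ∀ k, k0 ≤ k → 2 * u k ≤ sg m k - 2 * k) (n : ℕ) :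
    {x : ℕ × ℕ | x.1 ∈ Aset4 (fun k => Pr (u k)) k0 s ∧ x.2 ∈ Aset4 (fun k => Pr (u k)) k0 s ∧
      x.1 ≤ x.2 ∧ x.1 + x.2 = n}.ncard ≤ 3 := by
  classical
  obtain ⟨P, hPdef⟩ : ∃ P : ℕ → Finset ℕ, P = fun k => Pr (u k) := ⟨_, rfl⟩
  rw [← hPdef]
  have hPmem : ∀ k p, p ∈ P k → p.Prime ∧ p ≤ 2 ^ u k := by
    intro k p hp
    rw [hPdef] at hp
    have h := Finset.mem_filter.1 hp
    exact ⟨h.2, (Finset.mem_Ioc.1 h.1).2⟩
  have hsp : ∀ j, (s j).Prime := fun j => (Finset.mem_filter.1 (hs j)).2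
  have hmono : ∀ i j, i < j → m i + 2 ≤ m j := by
    intro i j hij
    induction j, hij using Nat.le_induction with
    | base => exact hm i
    | succ k _ ih => exact ih.trans ((Nat.le_add_right _ 2).trans (hm k))
  have hinj : Function.Injective s := by
    have hlt : ∀ i j, i < j → s i < s j := fun i j hij => by
      induction j, hij using Nat.le_induction with
      | base => exact Pr_lt hm (Nat.lt_succ_self i) (hs i) (hs (i + 1))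
      | succ k _ ih => exact ih.trans (Pr_lt hm (Nat.lt_succ_self k) (hs k) (hs (k + 1)))
    intro i j hij
    by_contra hne
    rcases lt_or_gt_of_ne hne with h | h
    · exact absurd hij (hlt i j h).ne
    · exact absurd hij (hlt j i h).ne'
  have hm2 : ∀ j, 2 ≤ m j := by
    intro j
    rcases Nat.eq_zero_or_pos j with h | h
    · rw [h]; exact hm0
    · have := hmono 0 j h; omega
  by_contra hcon
  rw [not_le] at hcon
  have hfin : {x : ℕ × ℕ | x.1 ∈ Aset4 P k0 s ∧ x.2 ∈ Aset4 P k0 s ∧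
      x.1 ≤ x.2 ∧ x.1 + x.2 = n}.Finite :=
    Set.finite_of_ncard_pos (by omega)
  obtain ⟨x0, x1, x2, hx0, hx1, hx2, h01, h02, h12⟩ :=
    (Set.two_lt_ncard_iff hfin).1 (lt_trans (by norm_num) hcon)
  obtain ⟨x3, hx3, hx3n⟩ : ∃ x3 ∈ {x : ℕ × ℕ | x.1 ∈ Aset4 P k0 s ∧ x.2 ∈ Aset4 P k0 s ∧
      x.1 ≤ x.2 ∧ x.1 + x.2 = n}, x3 ∉ ({x0, x1, x2} : Set (ℕ × ℕ)) := by
    refine Set.exists_mem_notMem_of_ncard_lt_ncard (lt_of_le_of_lt ?_ hcon) (Set.toFinite _)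
    have h1 := Set.ncard_insert_le x0 ({x1, x2} : Set (ℕ × ℕ))
    have h2 := Set.ncard_insert_le x1 ({x2} : Set (ℕ × ℕ))
    rw [Set.ncard_singleton] at h2
    omega
  have h03 : x0 ≠ x3 := fun h => hx3n (by rw [← h]; exact Set.mem_insert _ _)
  have h13 : x1 ≠ x3 := fun h =>
    hx3n (by rw [← h]; exact Set.mem_insert_of_mem _ (Set.mem_insert _ _))
  have h23 : x2 ≠ x3 := fun h =>
    hx3n (by rw [← h]; exact Set.mem_insert_of_mem _ (Set.mem_insert_of_mem _ rfl))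
  obtain ⟨hx0a, hx0b, hx0l, hx0n⟩ := hx0
  obtain ⟨hx1a, hx1b, hx1l, hx1n⟩ := hx1
  obtain ⟨hx2a, hx2b, hx2l, hx2n⟩ := hx2
  obtain ⟨hx3a, hx3b, hx3l, hx3n'⟩ := hx3
  obtain ⟨k, l, p0, v0, hlk, hk0, hp0, hv0, hp0B, hv0B, hc0⟩ := dec hx0a hx0b
  obtain ⟨k1, l1, p1, v1, hlk1, hk01, hp1, hv1, hp1B, hv1B, hc1⟩ := dec hx1a hx1b
  obtain ⟨k2, l2, p2, v2, hlk2, hk02, hp2, hv2, hp2B, hv2B, hc2⟩ := dec hx2a hx2b
  obtain ⟨k3, l3, p3, v3, hlk3, hk03, hp3, hv3, hp3B, hv3B, hc3⟩ := dec hx3a hx3b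
  have e1 : code s k1 p1 + code s l1 v1 = code s k p0 + code s l v0 := by
    rcases hc0 with ⟨h, h'⟩ | ⟨h, h'⟩ <;> rcases hc1 with ⟨h1, h1'⟩ | ⟨h1, h1'⟩ <;> omega
  have e2 : code s k2 p2 + code s l2 v2 = code s k p0 + code s l v0 := by
    rcases hc0 with ⟨h, h'⟩ | ⟨h, h'⟩ <;> rcases hc2 with ⟨h1, h1'⟩ | ⟨h1, h1'⟩ <;> omega
  have e3 : code s k3 p3 + code s l3 v3 = code s k p0 + code s l v0 := by
    rcases hc0 with ⟨h, h'⟩ | ⟨h, h'⟩ <;> rcases hc3 with ⟨h1, h1'⟩ | ⟨h1, h1'⟩ <;> omega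
  obtain ⟨rfl, rfl, f1, g1⟩ := code_sum_modEq hsp hinj hlk1 hlk (notBad hp1 hp1B)
    (notBad hp0 hp0B) (notBad hv1 hv1B) (notBad hv0 hv0B) e1
  obtain ⟨rfl, rfl, f2, g2⟩ := code_sum_modEq hsp hinj hlk2 hlk (notBad hp2 hp2B)
    (notBad hp0 hp0B) (notBad hv2 hv2B) (notBad hv0 hv0B) e2
  obtain ⟨rfl, rfl, f3, g3⟩ := code_sum_modEq hsp hinj hlk3 hlk (notBad hp3 hp3B)
    (notBad hp0 hp0B) (notBad hv3 hv3B) (notBad hv0 hv0B) e3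
  have n01 : ¬ (p1 = p0 ∧ v1 = v0) := ne_pair h01 hx0l hx1l hx0n hx1n hc0 hc1
  have n02 : ¬ (p2 = p0 ∧ v2 = v0) := ne_pair h02 hx0l hx2l hx0n hx2n hc0 hc2
  have n03 : ¬ (p3 = p0 ∧ v3 = v0) := ne_pair h03 hx0l hx3l hx0n hx3n' hc0 hc3
  have n12 : ¬ (p2 = p1 ∧ v2 = v1) := ne_pair h12 hx1l hx2l hx1n hx2n hc1 hc2
  have n13 : ¬ (p3 = p1 ∧ v3 = v1) := ne_pair h13 hx1l hx3l hx1n hx3n' hc1 hc3
  have n23 : ¬ (p3 = p2 ∧ v3 = v2) := ne_pair h23 hx2l hx3l hx2n hx3n' hc2 hc3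
  rcases hlk.lt_or_eq with hlt | heq
  · -- different levels: `p0` has been removed
    have trip : ∀ {a b c d : ℕ}, a ∈ P k3 → b ∈ P k3 → c ∈ P l3 → d ∈ P l3 →
        (∀ j < k3, ¬ s j ∣ a) → (∀ j < k3, ¬ s j ∣ b) → (∀ j < l3, ¬ s j ∣ c) →
        (∀ j < l3, ¬ s j ∣ d) →
        a ≡ p0 [MOD ∏ j ∈ Ico l3 k3, s j] → b ≡ p0 [MOD ∏ j ∈ Ico l3 k3, s j] →
        a * c ≡ p0 * v0 [MOD ∏ j ∈ range l3, s j] → b * d ≡ p0 * v0 [MOD ∏ j ∈ range l3, s j] →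
        ¬ (a = p0 ∧ c = v0) → ¬ (b = p0 ∧ d = v0) → ¬ (b = a ∧ d = c) →
        (⟨∏ j ∈ range l3, s j, ∏ j ∈ Ico l3 k3, s j, p0, a, b, v0, c, d⟩ : Tup) ∈
          tupS P s k3 l3 := by
      intro a b c d ha hb hc hd na nb nc nd w1 w2 r1 r2 m1 m2 m3
      unfold tupS
      rw [Finset.mem_filter]
      refine ⟨Finset.mem_image.2 ⟨(p0, a, b, v0, c, d), ?_, rfl⟩, ?_, ?_, ?_⟩
      · simp only [Finset.mem_product]
        exact ⟨hp0, ha, hb, hv0, hc, hd⟩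
      · exact ⟨w1, w2, r1, r2, m1, m2, m3⟩
      · intro j hj
        exact ⟨notBad hp0 hp0B j hj, na j hj, nb j hj⟩
      · intro j hj
        exact ⟨notBad hv0 hv0B j hj, nc j hj, nd j hj⟩
    apply hp0B
    unfold Bad4
    rw [Finset.mem_filter]
    refine ⟨hp0, Or.inr ⟨l3, hk0, hlt,
      ⟨∏ j ∈ range l3, s j, ∏ j ∈ Ico l3 k3, s j, p0, p1, p2, p3, v0, v1, v2, v3⟩, ?_, rfl⟩⟩
    unfold tupS4
    rw [Finset.mem_filter]
    refine ⟨Finset.mem_image.2 ⟨(p0, p1, p2, p3, v0, v1, v2, v3), ?_, rfl⟩, ?_, ?_, ?_⟩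
    · simp only [Finset.mem_product]
      exact ⟨hp0, hp1, hp2, hp3, hv0, hv1, hv2, hv3⟩
    · exact trip hp1 hp2 hv1 hv2 (notBad hp1 hp1B) (notBad hp2 hp2B) (notBad hv1 hv1B)
        (notBad hv2 hv2B) g1 g2 f1 f2 n01 n02 n12
    · exact trip hp1 hp3 hv1 hv3 (notBad hp1 hp1B) (notBad hp3 hp3B) (notBad hv1 hv1B)
        (notBad hv3 hv3B) g1 g3 f1 f3 n01 n03 n13
    · exact trip hp2 hp3 hv2 hv3 (notBad hp2 hp2B) (notBad hp3 hp3B) (notBad hv2 hv2B)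
        (notBad hv3 hv3B) g2 g3 f2 f3 n02 n03 n23
  · -- the same level
    subst heq
    obtain ⟨q0, b0⟩ := hPmem _ _ hp0
    obtain ⟨q1, b1⟩ := hPmem _ _ hp1
    obtain ⟨r0, c0⟩ := hPmem _ _ hv0
    obtain ⟨r1, c1⟩ := hPmem _ _ hv1
    have hR := (prod_range_bounds hm2 (fun j (_ : j < _) => hs j) (k := l3)).1
    have hpow : ∀ a b : ℕ, a ≤ 2 ^ u l3 → b ≤ 2 ^ u l3 → a * b ≤ ∏ j ∈ range l3, s j := by
      intro a b ha hb
      calc a * b ≤ 2 ^ u l3 * 2 ^ u l3 := Nat.mul_le_mul ha hb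
        _ = 2 ^ (2 * u l3) := by rw [two_mul, pow_add]
        _ ≤ 2 ^ (sg m l3 - 2 * l3) := Nat.pow_le_pow_right (by norm_num) (hsq _ hk0)
        _ ≤ _ := hR
    have a0 := hpow _ _ b0 c0
    have a1 := hpow _ _ b1 c1
    have hpos0 : 0 < p0 * v0 := Nat.mul_pos q0.pos r0.pos
    have hpos1 : 0 < p1 * v1 := Nat.mul_pos q1.pos r1.pos
    have heq : p1 * v1 = p0 * v0 := by
      rcases le_total (p1 * v1) (p0 * v0) with h | h
      · have h3 := (Nat.modEq_iff_dvd' h).1 f1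
        have h4 := Nat.eq_zero_of_dvd_of_lt h3 (by omega)
        omega
      · have h3 := (Nat.modEq_iff_dvd' h).1 f1.symm
        have h4 := Nat.eq_zero_of_dvd_of_lt h3 (by omega)
        omega
    have hd : p1 ∣ p0 * v0 := ⟨v1, heq.symm⟩
    rcases (q1.dvd_mul).1 hd with h | h
    · have hpp : p1 = p0 := (Nat.prime_dvd_prime_iff_eq q1 q0).1 h
      apply n01
      refine ⟨hpp, ?_⟩
      rw [hpp] at heq
      exact Nat.eq_of_mul_eq_mul_left q0.pos heq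
    · have hpp : p1 = v0 := (Nat.prime_dvd_prime_iff_eq q1 r0).1 h
      have hvv : v1 = p0 := by
        rw [hpp, mul_comm p0] at heq
        exact Nat.eq_of_mul_eq_mul_left r0.pos heq
      subst hpp hvv
      apply h01
      apply Prod.ext <;>
      rcases hc0 with ⟨h, h'⟩ | ⟨h, h'⟩ <;> rcases hc1 with ⟨h1, h1'⟩ | ⟨h1, h1'⟩ <;> omega

end Pool.Agent.TwR4
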