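import Pool.Agent.TwR4.Par
import Pool.Agent.TwR4.Rep
import Pool.Agent.TwR4.Dns
import Pool.Agent.TwR.Sel

/-! Assembly. -/

namespace Pool.Agent.TwR4

open Finset Filter Pool.Agent.TwR

/-- the fraction (times 4) of removed primes of class `k` -/
noncomputable def fr4 (u : ℕ → ℕ) (k0 k : ℕ) (s : ℕ → ℕ) : ℝ :=
  if k0 ≤ k then
    4 * (∑ l ∈ Ico k0 k, ((tupS4 (fun k => Pr (u k)) s k l).card : ℝ)) / (Pr (u k)).card
  else 0

theorem Params4.pos {β' : ℝ} {m u : ℕ → ℕ} {k0 : ℕ} (h : Params4 β' m u k0) {k : ℕ}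
    (hk : k0 ≤ k) : 1 ≤ k := by
  rcases Nat.eq_zero_or_pos k with h0 | h0
  · subst h0
    have h1 := h.sq 0 hk
    have h2 := h.u2 0 hk
    have h3 : sg m 0 = 0 := by simp [sg]
    omega
  · exact h0

theorem Params4.card_pos {β' : ℝ} {m u : ℕ → ℕ} {k0 : ℕ} (h : Params4 β' m u k0) {k : ℕ}
    (hk : k0 ≤ k) : (0 : ℝ) < (Pr (u k)).card := by
  have h1 := h.card k hk
  have h2 := h.pos hk
  exact_mod_cast (by omega : 0 < (Pr (u k)).card)

theorem fr4_sum {β' : ℝ} {m u : ℕ → ℕ} {k0 : ℕ} (h : Params4 β' m u k0) (k : ℕ) :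
    ∑ s ∈ Sq (fun j => Pr (m j)) k, fr4 u k0 k s ≤
      (1 / 2) ^ (k + 1) * ((Sq (fun j => Pr (m j)) k).card : ℝ) := by
  by_cases hk : k0 ≤ k
  · have hP := h.card_pos hk
    have hk1 : (1 : ℝ) ≤ k := by exact_mod_cast h.pos hk
    set Q : ℝ := ∏ j ∈ range k, ((Pr (m j)).card : ℝ) with hQ
    have hcard : ((Sq (fun j => Pr (m j)) k).card : ℝ) = Q := by
      rw [card_Sq, hQ]
      push_cast
      rfl
    have hQ0 : 0 ≤ Q := Finset.prod_nonneg (fun j _ => Nat.cast_nonneg _)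
    rw [hcard]
    have hm2 : ∀ l, k0 ≤ l → l < k →
        4 * (k : ℝ) * 2 ^ (k + 1) *
          ∑ s ∈ Sq (fun j => Pr (m j)) k, ((tupS4 (fun k => Pr (u k)) s k l).card : ℝ) ≤
          ((Pr (u k)).card : ℝ) * Q := by
      intro l hl hlk
      obtain ⟨T, hT, hTc⟩ := exists_T4 (m := m) (u := u) (k := k) (l := l) h.m2 h.m0 hlk.le
        (h.u2 l hl) (h.u2 k hk)
      have hTc' : ∑ s ∈ Sq (fun j => Pr (m j)) k,
          ((tupS4 (fun k => Pr (u k)) s k l).card : ℝ) = T.card := by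
        rw [← hTc]
        push_cast
        rfl
      rw [hTc']
      rcases count4 (h.num k l hl hlk) (h.big k l hl hlk) hT with he | ⟨g1, g3⟩
      · rw [he, Finset.card_empty, Nat.cast_zero, mul_zero]
        exact mul_nonneg hP.le hQ0
      · refine le_trans ?_ (h.main k l hl hlk g1)
        have h4 : (T.card : ℝ) ≤ bnd4 ((2 ^ u k : ℕ) : ℝ) ((2 ^ u l : ℕ) : ℝ)
            ((2 ^ (sg m l - 2 * l) : ℕ) : ℝ) ((2 ^ (sg m k - sg m l - 2 * (k - l)) : ℕ) : ℝ)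
            ((2 ^ (sg m k - sg m l) : ℕ) : ℝ) := g3
        exact mul_le_mul_of_nonneg_left h4 (by positivity)
    have h5 : ∑ s ∈ Sq (fun j => Pr (m j)) k, fr4 u k0 k s =
        4 * (∑ l ∈ Ico k0 k, ∑ s ∈ Sq (fun j => Pr (m j)) k,
          ((tupS4 (fun k => Pr (u k)) s k l).card : ℝ)) / (Pr (u k)).card := by
      rw [Finset.sum_comm, Finset.mul_sum, Finset.sum_div]
      refine Finset.sum_congr rfl (fun s _ => ?_)
      unfold fr4
      rw [if_pos hk]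
    rw [h5, div_le_iff₀ hP]
    have h6 : (4 * (k : ℝ) * 2 ^ (k + 1)) * ∑ l ∈ Ico k0 k,
        ∑ s ∈ Sq (fun j => Pr (m j)) k, ((tupS4 (fun k => Pr (u k)) s k l).card : ℝ) ≤
        k * (((Pr (u k)).card : ℝ) * Q) := by
      rw [Finset.mul_sum]
      calc ∑ l ∈ Ico k0 k, 4 * (k : ℝ) * 2 ^ (k + 1) *
            ∑ s ∈ Sq (fun j => Pr (m j)) k, ((tupS4 (fun k => Pr (u k)) s k l).card : ℝ)
          ≤ ∑ l ∈ Ico k0 k, ((Pr (u k)).card : ℝ) * Q :=
            Finset.sum_le_sum (fun l hl => by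
              rw [Finset.mem_Ico] at hl
              exact hm2 l hl.1 hl.2)
        _ = ((k - k0 : ℕ) : ℝ) * (((Pr (u k)).card : ℝ) * Q) := by
            rw [Finset.sum_const, Nat.card_Ico, nsmul_eq_mul]
        _ ≤ k * (((Pr (u k)).card : ℝ) * Q) := by
            refine mul_le_mul_of_nonneg_right ?_ (mul_nonneg hP.le hQ0)
            exact Nat.cast_le.2 (Nat.sub_le k k0)
    set Z : ℝ := ∑ l ∈ Ico k0 k, ∑ s ∈ Sq (fun j => Pr (m j)) k,
      ((tupS4 (fun k => Pr (u k)) s k l).card : ℝ) with hZ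
    have h7 : (2 : ℝ) ^ (k + 1) * (4 * Z) ≤ ((Pr (u k)).card : ℝ) * Q := by
      have hk0 : (0 : ℝ) < k := by linarith
      have h8 : (k : ℝ) * ((2 : ℝ) ^ (k + 1) * (4 * Z)) ≤ k * (((Pr (u k)).card : ℝ) * Q) := by
        calc (k : ℝ) * ((2 : ℝ) ^ (k + 1) * (4 * Z)) = (4 * (k : ℝ) * 2 ^ (k + 1)) * Z := by ring
          _ ≤ _ := h6
      exact le_of_mul_le_mul_left h8 hk0
    have h9 : (1 / 2 : ℝ) ^ (k + 1) * 2 ^ (k + 1) = 1 := by
      rw [← mul_pow]; norm_num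
    calc 4 * Z = (1 / 2 : ℝ) ^ (k + 1) * (2 ^ (k + 1) * (4 * Z)) := by
          rw [← mul_assoc, h9, one_mul]
      _ ≤ (1 / 2 : ℝ) ^ (k + 1) * (((Pr (u k)).card : ℝ) * Q) :=
          mul_le_mul_of_nonneg_left h7 (pow_nonneg (by norm_num) _)
      _ = (1 / 2) ^ (k + 1) * Q * (Pr (u k)).card := by ring
  · have h1 : ∑ s ∈ Sq (fun j => Pr (m j)) k, fr4 u k0 k s = 0 := by
      refine Finset.sum_eq_zero (fun s _ => ?_)
      unfold fr4
      rw [if_neg hk]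
    rw [h1]
    exact mul_nonneg (pow_nonneg (by norm_num) _) (Nat.cast_nonneg _)

theorem exists_set4 {β' : ℝ} (h1 : 4 / 9 < β') (h2 : β' < (√11 - 1) / 5) :
    ∃ A : Set ℕ, (∀ a ∈ A, 0 < a) ∧
      (∀ n, {x : ℕ × ℕ | x.1 ∈ A ∧ x.2 ∈ A ∧ x.1 ≤ x.2 ∧ x.1 + x.2 = n}.ncard ≤ 3) ∧
      ∃ N0 : ℕ, ∀ N : ℕ, N0 ≤ N → (N : ℝ) ^ β' ≤ ((A ∩ Set.Icc 1 N).ncard : ℝ) := by
  obtain ⟨m, u, k0, hP⟩ := exists_params4 h1 h2
  obtain ⟨s, hs, hf⟩ := select (Q := fun j => Pr (m j)) (f := fr4 u k0)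
    (by
      intro k s s' hss
      unfold fr4
      by_cases hk : k0 ≤ k
      · rw [if_pos hk, if_pos hk]
        have : ∀ l ∈ Ico k0 k, ((tupS4 (fun k => Pr (u k)) s k l).card : ℝ) =
            ((tupS4 (fun k => Pr (u k)) s' k l).card : ℝ) := by
          intro l hl
          rw [Finset.mem_Ico] at hl
          rw [tupS4_congr hl.2.le hss]
        rw [Finset.sum_congr rfl this]
      · rw [if_neg hk, if_neg hk])
    (by
      intro k s
      unfold fr4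
      split_ifs
      · exact div_nonneg (mul_nonneg (by norm_num)
          (Finset.sum_nonneg (fun _ _ => Nat.cast_nonneg _))) (Nat.cast_nonneg _)
      · exact le_rfl)
    hP.ne (fun k => fr4_sum hP k)
  have hsp : ∀ j, (s j).Prime := fun j => (Finset.mem_filter.1 (hs j)).2
  have hs2 : ∀ j, 2 ≤ s j := fun j => (hsp j).two_le
  refine ⟨Aset4 (fun k => Pr (u k)) k0 s, ?_, ?_, ?_⟩
  · rintro a ⟨k, hk, p, hp, hpb, rfl⟩
    exact code_pos hs2 (hP.pos hk) p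
  · exact three_reps hs hP.m2 hP.m0 hP.sq
  · obtain ⟨N0, hN0⟩ := exists_level hs2 k0
    refine ⟨N0, fun N hN => ?_⟩
    obtain ⟨k, hk, hk1, hk2⟩ := hN0 N hN
    have hPc := hP.card_pos hk
    have hbad : 2 * (Bad4 (fun k => Pr (u k)) k0 s k).card ≤ (Pr (u k)).card := by
      have g1 := card_Bad4_le (P := fun k => Pr (u k)) hsp
        (fun k p hp => (Finset.mem_filter.1 hp).2) k0 k
      have g2 := hf k
      unfold fr4 at g2
      rw [if_pos hk, div_lt_one hPc] at g2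
      have g3 : 4 * ∑ l ∈ Ico k0 k, (tupS4 (fun k => Pr (u k)) s k l).card < (Pr (u k)).card := by
        exact_mod_cast g2
      have g4 := hP.card k hk
      have g5 : (Bad4 (fun k => Pr (u k)) k0 s k).card ≤
        k + ∑ l ∈ Ico k0 k, (tupS4 (fun k => Pr (u k)) s k l).card := g1
      omega
    have hsq := hP.sq k hk
    have hc := card_ge4 hs hP.m2 hP.m0 hk (hP.u2 k hk) (by omega) hbad hk1
    have hN1 : N ≤ 2 ^ (sg m (k + 1) + 2 * (k + 1)) := hk2.le.trans (Bs_le hs (k + 1))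
    have hβ : 0 ≤ β' := by linarith
    calc (N : ℝ) ^ β' ≤ (((2 ^ (sg m (k + 1) + 2 * (k + 1)) : ℕ) : ℝ)) ^ β' :=
          Real.rpow_le_rpow (Nat.cast_nonneg N) (by exact_mod_cast hN1) hβ
      _ ≤ ((Pr (u k)).card : ℝ) / 2 := hP.dens k hk
      _ ≤ ((Aset4 (fun k => Pr (u k)) k0 s ∩ Set.Icc 1 N).ncard : ℝ) := by
          rw [div_le_iff₀ (by norm_num)]
          have : ((Pr (u k)).card : ℝ) ≤
              2 * ((Aset4 (fun k => Pr (u k)) k0 s ∩ Set.Icc 1 N).ncard : ℝ) := by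
            exact_mod_cast hc
          linarith

theorem main4 {ε : ℝ} (hε : 0 < ε) :
    ∃ A : Set ℕ, (∀ a ∈ A, 0 < a) ∧
      (∀ n, {x : ℕ × ℕ | x.1 ∈ A ∧ x.2 ∈ A ∧ x.1 ≤ x.2 ∧ x.1 + x.2 = n}.ncard ≤ 3) ∧
      ∃ N0 : ℕ, ∀ N : ℕ, N0 ≤ N →
        (N : ℝ) ^ ((√11 - 1) / 5 - ε) ≤ ((A ∩ Set.Icc 1 N).ncard : ℝ) := by
  obtain ⟨h3, h4⟩ := sqrt11_bounds
  obtain ⟨A, hA0, hA1, N0, hA2⟩ := exists_set4 (β' := max ((√11 - 1) / 5 - ε) (9 / 20))
    (lt_of_lt_of_le (by norm_num) (le_max_right _ _)) (max_lt (by linarith) (by linarith))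
  refine ⟨A, hA0, hA1, max N0 1, fun N hN => ?_⟩
  have hN1 : 1 ≤ N := (le_max_right _ _).trans hN
  refine le_trans ?_ (hA2 N ((le_max_left _ _).trans hN))
  exact Real.rpow_le_rpow_of_exponent_le (by exact_mod_cast hN1) (le_max_left _ _)

end Pool.Agent.TwR4
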