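import Pool.Agent.TwR4.Exp
import Pool.Agent.TwR.Num

/-! The bound of `count4` in powers of two. -/

namespace Pool.Agent.TwR4

open Finset Filter Pool.Agent.TwR

/-- the bound of `count4` -/
noncomputable def bnd4 (U V Rm Wm WM : ℝ) : ℝ :=
  384 * U ^ 5 * V ^ 9 * WM / (Rm ^ 5 * Wm ^ 2)

theorem bnd4_rpow (a b c d e : ℝ) :
    bnd4 ((2 : ℝ) ^ a) ((2 : ℝ) ^ b) ((2 : ℝ) ^ c) ((2 : ℝ) ^ d) ((2 : ℝ) ^ e) ≤
      (2 : ℝ) ^ (9 + 5 * a + 9 * b + e - 5 * c - 2 * d) := by
  have h2 : (0 : ℝ) < 2 := by norm_num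
  have hp : ∀ (z : ℝ) (n : ℕ), ((2 : ℝ) ^ z) ^ n = (2 : ℝ) ^ ((n : ℝ) * z) := by
    intro z n
    rw [← Real.rpow_natCast, ← Real.rpow_mul h2.le, mul_comm]
  unfold bnd4
  have h3 : (2 : ℝ) ^ (9 + 5 * a + 9 * b + e - 5 * c - 2 * d) =
      512 * ((2 : ℝ) ^ a) ^ 5 * ((2 : ℝ) ^ b) ^ 9 * (2 : ℝ) ^ e /
        (((2 : ℝ) ^ c) ^ 5 * ((2 : ℝ) ^ d) ^ 2) := by
    rw [hp, hp, hp, hp]
    have h8 : (512 : ℝ) = (2 : ℝ) ^ (9 : ℝ) := by
      rw [show (9 : ℝ) = ((9 : ℕ) : ℝ) by norm_num, Real.rpow_natCast]; norm_num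
    rw [h8, ← Real.rpow_add h2, ← Real.rpow_add h2, ← Real.rpow_add h2, ← Real.rpow_add h2,
      ← Real.rpow_sub h2]
    congr 1
    push_cast
    ring
  rw [h3]
  gcongr
  norm_num

/-- the `k - l` summands between the levels `l < k` are at least `m l` -/
theorem sg_add_mul_le {m : ℕ → ℕ} (hm : ∀ j, m j + 2 ≤ m (j + 1)) {k l : ℕ} (hl : l ≤ k) :
    sg m l + (k - l) * m l ≤ sg m k := by
  induction k, hl using Nat.le_induction with
  | base => simp
  | succ k hk ih =>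
    rw [sg_succ]
    have h1 : m l ≤ m k := by
      induction k, hk using Nat.le_induction with
      | base => exact le_rfl
      | succ i hi ih2 =>
        have h2 := hm i
        have h3 : m l ≤ m i := by
          clear ih ih2 h2
          induction i, hi using Nat.le_induction with
          | base => exact le_rfl
          | succ j hj ih3 => have := hm j; omega
        omega
    have h2 : k + 1 - l = (k - l) + 1 := by omega
    rw [h2, Nat.add_mul, Nat.one_mul]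
    omega

end Pool.Agent.TwR4
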